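import Pool.Agent.Helper27.D6Comp
import Pool.Agent.Helper1.D6.R7

/-!
In every dyadic interval a positive proportion of the integers needs six factorials for a square.
-/

set_option autoImplicit false

namespace Pool.Agent.Results.MP_636046_nt.DyadicSix

open Finset

/-- `m` has a representation of length `k`: there are positive integers
`a 0 < a 1 < ... < a (k - 1)`, the largest of which is `m`, such that the product of the factorials
`(a i)!` is a perfect square. -/
def Repr (k m : ℕ) : Prop :=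
  ∃ a : Fin k → ℕ, StrictMono a ∧ (∀ i, 0 < a i) ∧ (∃ i, a i = m ∧ ∀ j, a j ≤ m) ∧
    IsSquare (∏ i, (a i).factorial)

/-- `F m` is the least `k ≥ 2` such that `m` has a representation of length `k` (and `0` if there
is no such `k`). -/
noncomputable def F (m : ℕ) : ℕ := sInf {k : ℕ | 2 ≤ k ∧ Repr k m}

theorem repr_iff (k m : ℕ) : Repr k m ↔ N140ae710.HasRepresentation m k := by
  constructor
  · rintro ⟨a, ha, hpos, ⟨i, hi, hle⟩, hsq⟩
    refine ⟨univ.map ⟨a, ha.injective⟩, by simp, ?_, ?_, ?_⟩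
    · rw [Finset.mem_map]
      exact ⟨i, Finset.mem_univ _, hi⟩
    · intro b hb
      obtain ⟨j, _, rfl⟩ := Finset.mem_map.mp hb
      exact ⟨hpos j, hle j⟩
    · rw [Finset.prod_map]
      exact hsq
  · rintro ⟨s, hs, hm, hle, hsq⟩
    have hrange := s.range_orderEmbOfFin hs
    refine ⟨fun i => s.orderEmbOfFin hs i, (s.orderEmbOfFin hs).strictMono, ?_, ?_, ?_⟩
    · intro i
      exact (hle _ (s.orderEmbOfFin_mem hs i)).1
    · have h1 : m ∈ Set.range (s.orderEmbOfFin hs) := by rw [hrange]; exact hm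
      obtain ⟨i, hi⟩ := h1
      exact ⟨i, hi, fun j => (hle _ (s.orderEmbOfFin_mem hs j)).2⟩
    · have h2 : ∏ i, (s.orderEmbOfFin hs i).factorial = ∏ b ∈ s, b.factorial := by
        conv_rhs => rw [← s.image_orderEmbOfFin_univ hs]
        rw [Finset.prod_image]
        intro x _ y _ hxy
        exact (s.orderEmbOfFin hs).injective hxy
      rw [h2]
      exact hsq

theorem F_eq_six {m : ℕ} (h : N140ae710.HasMinimum m 6) : F m = 6 := by
  obtain ⟨_, h2, h3⟩ := h
  have h6 : 6 ∈ {k : ℕ | 2 ≤ k ∧ Repr k m} := ⟨by norm_num, (repr_iff 6 m).mpr h2⟩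
  have hle : F m ≤ 6 := Nat.sInf_le h6
  have hmem : F m ∈ {k : ℕ | 2 ≤ k ∧ Repr k m} := Nat.sInf_mem ⟨6, h6⟩
  rcases Nat.lt_or_ge (F m) 6 with hlt | hge
  · exact absurd ((repr_iff _ _).mp hmem.2) (h3 _ hmem.1 hlt)
  · omega

/-- There are `c > 0` and `N` such that for all `n ≥ N` at least `c * n` of the integers `m` with
`n / 2 < m ≤ n` satisfy `F m = 6`. -/
theorem result : ∃ c : ℝ, 0 < c ∧ ∃ N : ℕ, ∀ n : ℕ, N ≤ n →
    c * (n : ℝ) ≤ (((Ioc (n / 2) n).filter (fun m => F m = 6)).card : ℝ) := by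
  obtain ⟨c, hc, N, hN⟩ := Pool.Agent.Helper27.D6.dyadic_of_R7 Pool.Agent.Helper1.D6.R7
  refine ⟨c, hc, N, fun n hn => ?_⟩
  obtain ⟨S, hS, hS6, hcard⟩ := hN n hn
  refine hcard.trans ?_
  have hsub : S ⊆ (Ioc (n / 2) n).filter (fun m => F m = 6) := by
    intro m hm
    exact Finset.mem_filter.mpr ⟨hS hm, F_eq_six (hS6 m hm)⟩
  exact_mod_cast Finset.card_le_card hsub

end Pool.Agent.Results.MP_636046_nt.DyadicSix
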